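import Pool.Agent.KON.Geo

set_option autoImplicit false

/-!
# KON ARE : the area estimate

If `F` is analytic and injective on the open set `Ω` and `F a + F b ≠ 0` for all `a, b ∈ Ω`, then
`F Ω ∩ B_R` and `-(F Ω ∩ B_R)` are disjoint, so the area of `F Ω ∩ B_R` is at most `π R² / 2`.
-/

open MeasureTheory Metric Set

namespace KON

private theorem det1 (w : ℂ) : (w • (1 : ℂ →L[ℝ] ℂ)).det = ‖w‖ ^ 2 := by
  have h1 : ((w • (1 : ℂ →L[ℝ] ℂ) : ℂ →L[ℝ] ℂ) : ℂ →ₗ[ℝ] ℂ) = Algebra.lmul ℝ ℂ w := by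
    ext z
    simp
  rw [ContinuousLinearMap.det, h1]
  have := Algebra.norm_complex_apply w
  rw [Algebra.norm_apply] at this
  rw [this, Complex.normSq_eq_norm_sq]

theorem area_half {Ω : Set ℂ} (hΩ : IsOpen Ω) {F : ℂ → ℂ} (hF : DifferentiableOn ℂ F Ω)
    (hi : InjOn F Ω) (hs : ∀ a ∈ Ω, ∀ b ∈ Ω, F a + F b ≠ 0) {R : ℝ} (hR : 0 < R) :
    MQV.ar Ω F 0 R ≤ ENNReal.ofReal (Real.pi * R ^ 2 / 2) := by
  obtain ⟨s, hsd⟩ : ∃ s : Set ℂ, s = {z | z ∈ Ω ∧ 0 ≤ ‖F z‖ ∧ ‖F z‖ < R} := ⟨_, rfl⟩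
  have hsΩ : s ⊆ Ω := by
    rw [hsd]
    exact fun z hz => hz.1
  have hso : IsOpen s := by
    have h1 : s = Ω ∩ F ⁻¹' (ball 0 R) := by
      rw [hsd]
      ext z
      simp only [mem_ofPred_eq, mem_inter_iff, mem_preimage, mem_ball_zero_iff]
      exact ⟨fun h => ⟨h.1, h.2.2⟩, fun h => ⟨h.1, norm_nonneg _, h.2⟩⟩
    rw [h1]
    exact hF.continuousOn.isOpen_inter_preimage hΩ isOpen_ball
  have hder : ∀ z ∈ s, HasFDerivWithinAt F (deriv F z • (1 : ℂ →L[ℝ] ℂ)) s z := fun z hz =>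
    (((hF.differentiableAt (hΩ.mem_nhds (hsΩ hz))).hasDerivAt).complexToReal_fderiv).hasFDerivWithinAt
  have himg : MQV.ar Ω F 0 R = volume (F '' s) := by
    rw [← lintegral_abs_det_fderiv_eq_addHaar_image volume hso.measurableSet hder (hi.mono hsΩ)]
    unfold MQV.ar
    rw [← hsd]
    refine setLIntegral_congr_fun hso.measurableSet fun z _ => ?_
    show ENNReal.ofReal (‖deriv F z‖ ^ 2) = _
    rw [det1, abs_of_nonneg (sq_nonneg _)]
  obtain ⟨T, hT⟩ : ∃ T, T = F '' s := ⟨_, rfl⟩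
  have hTm : MeasurableSet T := by
    rw [hT]
    exact hso.measurableSet.image_of_continuousOn_injOn (hF.continuousOn.mono hsΩ) (hi.mono hsΩ)
  have hTb : T ⊆ ball 0 R := by
    rw [hT, hsd]
    rintro _ ⟨z, hz, rfl⟩
    exact mem_ball_zero_iff.2 hz.2.2
  have hTn : -T ⊆ ball 0 R := by
    intro w hw
    have := hTb hw
    rw [mem_ball_zero_iff] at this ⊢
    rwa [norm_neg] at this
  have hdis : Disjoint T (-T) := by
    rw [Set.disjoint_left]
    intro w hw hw'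
    rw [Set.mem_neg, hT] at hw'
    rw [hT] at hw
    obtain ⟨a, ha, rfl⟩ := hw
    obtain ⟨b, hb, hb'⟩ := hw'
    exact hs a (hsΩ ha) b (hsΩ hb) (by rw [hb']; ring)
  have h2 : volume T + volume T ≤ volume (ball (0 : ℂ) R) := by
    calc volume T + volume T = volume T + volume (-T) := by rw [Measure.measure_neg]
      _ = volume (T ∪ -T) := (measure_union hdis hTm.neg).symm
      _ ≤ _ := measure_mono (union_subset hTb hTn)
  rw [Complex.volume_ball] at h2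
  have h3 : ENNReal.ofReal R ^ 2 * NNReal.pi = ENNReal.ofReal (Real.pi * R ^ 2 / 2) +
      ENNReal.ofReal (Real.pi * R ^ 2 / 2) := by
    rw [← ENNReal.ofReal_add (by positivity) (by positivity), add_halves,
      ENNReal.ofReal_mul Real.pi_pos.le, ENNReal.ofReal_pow hR.le, mul_comm]
    congr 1
    rw [← NNReal.coe_real_pi, ENNReal.ofReal_coe_nnreal]
  rw [h3] at h2
  rw [himg, ← hT]
  by_contra hc
  push Not at hc
  exact absurd h2 (not_le.2 (ENNReal.add_lt_add hc hc))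

/-- The real axis is a null set. -/
theorem volume_axis : volume {x : ℂ | x.im = 0} = 0 := by
  set S : Submodule ℝ ℂ :=
    { carrier := {y : ℂ | y.im = 0}
      add_mem' := by
        intro x y hx hy
        simp only [Set.mem_ofPred_eq] at hx hy ⊢
        rw [Complex.add_im, hx, hy, add_zero]
      zero_mem' := by simp
      smul_mem' := by
        intro r x hx
        simp only [Set.mem_ofPred_eq] at hx ⊢
        rw [Complex.real_smul, Complex.im_ofReal_mul, hx, mul_zero] } with hS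
  have hne : S ≠ ⊤ := by
    intro h
    have h1 : Complex.I ∈ S := by rw [h]; exact Submodule.mem_top
    have h2 : (Complex.I).im = 0 := h1
    rw [Complex.I_im] at h2
    exact one_ne_zero h2
  exact Measure.addHaar_submodule (volume : Measure ℂ) S hne

theorem G_conj (W : ℂ) : G ((starRingEnd ℂ) W) = (starRingEnd ℂ) (G W) := by
  unfold G Pu
  simp [map_add, map_mul, map_sub, map_div₀, map_pow, map_ofNat]

theorem conj_mem {W : ℂ} (h : W ∈ Q4) : (starRingEnd ℂ) W ∈ Q1 := by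
  refine ⟨?_, ?_⟩
  · rw [Complex.conj_re]
    exact h.1
  · rw [Complex.conj_im]
    linarith [h.2]

theorem G_diff : DifferentiableOn ℂ G RH := by
  intro W hW
  have h1 := add_one_ne (W := W) hW
  have h2 : DifferentiableAt ℂ (fun W : ℂ => 1 / (W + 1)) W :=
    (differentiableAt_const _).div (differentiableAt_id.add_const _) h1
  have h3 : DifferentiableAt ℂ (fun W : ℂ => Pu (1 / (W + 1))) W := by
    unfold Pu
    exact (((differentiableAt_const _).sub (h2.const_mul _)).add ((h2.pow 2).const_mul _)).sub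
      ((h2.pow 3).const_mul _)
  have h4 : DifferentiableAt ℂ (fun W : ℂ => (3 + W ^ 2) / 4) W := by fun_prop
  exact (h4.add (h3.const_mul _)).differentiableWithinAt

theorem G_inj_Q4 : InjOn G Q4 := by
  intro a ha b hb h
  have h1 : G ((starRingEnd ℂ) a) = G ((starRingEnd ℂ) b) := by rw [G_conj, G_conj, h]
  have h2 := G_inj_Q1 (conj_mem ha) (conj_mem hb) h1
  exact (starRingEnd ℂ).injective h2

theorem sum_ne4 : ∀ a ∈ Q4, ∀ b ∈ Q4, G a + G b ≠ 0 := by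
  intro a ha b hb h
  refine sum_ne (conj_mem ha) (conj_mem hb) ?_
  rw [G_conj, G_conj, ← map_add, h, map_zero]

/-- `G` is areally mean `1`-valent on the right half plane. -/
theorem G_mv : MQV.MV RH 1 G := by
  refine ⟨G_diff, fun R hR => ?_⟩
  have s1 : Q1 ⊆ RH := fun z hz => hz.1
  have s4 : Q4 ⊆ RH := fun z hz => hz.1
  have a1 := area_half isOpen_Q1 (G_diff.mono s1) G_inj_Q1 (fun a ha b hb => sum_ne ha hb) hR
  have a4 := area_half isOpen_Q4 (G_diff.mono s4) G_inj_Q4 sum_ne4 hR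
  have hsub : {z | z ∈ RH ∧ 0 ≤ ‖G z‖ ∧ ‖G z‖ < R} ⊆
      ({z | z ∈ Q1 ∧ 0 ≤ ‖G z‖ ∧ ‖G z‖ < R} ∪ {z | z ∈ Q4 ∧ 0 ≤ ‖G z‖ ∧ ‖G z‖ < R}) ∪
        {x : ℂ | x.im = 0} := by
    rintro z ⟨h1, h2⟩
    rcases lt_trichotomy z.im 0 with h | h | h
    · exact Or.inl (Or.inr ⟨⟨h1, h⟩, h2⟩)
    · exact Or.inr h
    · exact Or.inl (Or.inl ⟨⟨h1, h⟩, h2⟩)
  have e0 : ∫⁻ z in {x : ℂ | x.im = 0}, ENNReal.ofReal (‖deriv G z‖ ^ 2) = 0 :=
    setLIntegral_measure_zero _ _ volume_axis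
  calc MQV.ar RH G 0 R ≤ ∫⁻ z in ({z | z ∈ Q1 ∧ 0 ≤ ‖G z‖ ∧ ‖G z‖ < R} ∪
        {z | z ∈ Q4 ∧ 0 ≤ ‖G z‖ ∧ ‖G z‖ < R}) ∪ {x : ℂ | x.im = 0},
          ENNReal.ofReal (‖deriv G z‖ ^ 2) := lintegral_mono_set hsub
    _ ≤ (∫⁻ z in ({z | z ∈ Q1 ∧ 0 ≤ ‖G z‖ ∧ ‖G z‖ < R} ∪
        {z | z ∈ Q4 ∧ 0 ≤ ‖G z‖ ∧ ‖G z‖ < R}), ENNReal.ofReal (‖deriv G z‖ ^ 2)) + 0 := by
        rw [← e0]
        exact lintegral_union_le _ _ _
    _ ≤ MQV.ar Q1 G 0 R + MQV.ar Q4 G 0 R := by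
        rw [add_zero]
        exact lintegral_union_le _ _ _
    _ ≤ ENNReal.ofReal (Real.pi * R ^ 2 / 2) + ENNReal.ofReal (Real.pi * R ^ 2 / 2) :=
        add_le_add a1 a4
    _ = ENNReal.ofReal (Real.pi * 1 * R ^ 2) := by
        rw [← ENNReal.ofReal_add (by positivity) (by positivity), add_halves, mul_one]

end KON
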