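import Pool.Agent.MPV.Conn

set_option autoImplicit false

/-!
# KON COE : Taylor coefficients of `f z = 1/(1-z)² - 1/(1-z) + polynomial`
-/

open MeasureTheory Metric Set

namespace KON

theorem coef_add {f g : ℂ → ℂ} (hf : DifferentiableOn ℂ f (ball 0 1))
    (hg : DifferentiableOn ℂ g (ball 0 1)) (n : ℕ) :
    MPV.coef (fun z => f z + g z) n = MPV.coef f n + MPV.coef g n := by
  have hfa : AnalyticAt ℂ f 0 := hf.analyticAt (isOpen_ball.mem_nhds (mem_ball_self one_pos))
  have hga : AnalyticAt ℂ g 0 := hg.analyticAt (isOpen_ball.mem_nhds (mem_ball_self one_pos))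
  unfold MPV.coef
  have h := iteratedDeriv_add (n := n) hfa.contDiffAt hga.contDiffAt
  have h2 : (f + g) = fun z => f z + g z := rfl
  rw [h2] at h
  rw [h, add_div]

theorem coef_mul {f : ℂ → ℂ} (hf : DifferentiableOn ℂ f (ball 0 1)) (c : ℂ) (n : ℕ) :
    MPV.coef (fun z => c * f z) n = c * MPV.coef f n := by
  have hfa : AnalyticAt ℂ f 0 := hf.analyticAt (isOpen_ball.mem_nhds (mem_ball_self one_pos))
  unfold MPV.coef
  rw [iteratedDeriv_const_mul c (hfa.contDiffAt)]
  ring

theorem coef_pow (k n : ℕ) : MPV.coef (fun z => z ^ k) n = if n = k then 1 else 0 := by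
  unfold MPV.coef
  rw [iteratedDeriv_fun_pow_zero]
  split_ifs with h
  · subst h
    rw [div_self]
    exact_mod_cast n.factorial_ne_zero
  · simp

theorem coef_of_series {f : ℂ → ℂ} {c : ℕ → ℂ}
    (h : HasFPowerSeriesOnBall f (.ofScalars ℂ c) 0 1) (n : ℕ) : MPV.coef f n = c n := by
  unfold MPV.coef
  rw [iteratedDeriv_eq_iteratedFDeriv, ← h.factorial_smul 1 n]
  have hn : (n.factorial : ℂ) ≠ 0 := by exact_mod_cast n.factorial_ne_zero
  simp [FormalMultilinearSeries.ofScalars, hn]

end KON
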