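import Pool.Agent.KON.Are
import Pool.Agent.KON.Coe

set_option autoImplicit false

/-!
# KON FIN : `A_n^(1) ≥ (1 + 10⁻⁵) n` for all `n ≥ 2`

`f z = G ((1+z)/(1-z)) = 1 + z/(1-z)² - 10⁻⁵ (1 + z - 16 z² - 11 z³)`.
-/

open MeasureTheory Metric Set

namespace KON

/-- the extremal candidate -/
noncomputable def f (z : ℂ) : ℂ := G ((1 + z) / (1 - z))

theorem one_sub_ne {z : ℂ} (h : z ∈ ball (0 : ℂ) 1) : 1 - z ≠ 0 := by
  intro h0
  have : z = 1 := (sub_eq_zero.1 h0).symm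
  rw [this, mem_ball_zero_iff, norm_one] at h
  exact lt_irrefl _ h

theorem quot_mem {z : ℂ} (h : z ∈ ball (0 : ℂ) 1) : (1 + z) / (1 - z) ∈ RH := by
  have hne := one_sub_ne h
  show 0 < ((1 + z) / (1 - z)).re
  rw [mem_ball_zero_iff] at h
  have h1 : z.re ^ 2 + z.im ^ 2 < 1 := by
    have h2 := Complex.normSq_eq_norm_sq z
    rw [Complex.normSq_apply] at h2
    have h3 : ‖z‖ ^ 2 < 1 := by
      have := norm_nonneg z
      nlinarith
    nlinarith
  have hpos : 0 < Complex.normSq (1 - z) := Complex.normSq_pos.2 hne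
  rw [Complex.div_re]
  have e : (1 + z).re * (1 - z).re / Complex.normSq (1 - z) + (1 + z).im * (1 - z).im /
      Complex.normSq (1 - z) = (1 - z.re ^ 2 - z.im ^ 2) / Complex.normSq (1 - z) := by
    simp only [Complex.add_re, Complex.sub_re, Complex.one_re, Complex.add_im, Complex.sub_im,
      Complex.one_im]
    ring
  rw [e]
  exact div_pos (by linarith) hpos

theorem quot_diff : DifferentiableOn ℂ (fun z : ℂ => (1 + z) / (1 - z)) (ball 0 1) := by
  intro z hz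
  exact ((differentiableAt_const _).add differentiableAt_id |>.div
    ((differentiableAt_const _).sub differentiableAt_id) (one_sub_ne hz)).differentiableWithinAt

theorem quot_inj : InjOn (fun z : ℂ => (1 + z) / (1 - z)) (ball 0 1) := by
  intro a ha b hb h
  have h1 := one_sub_ne ha
  have h2 := one_sub_ne hb
  have h3 : (1 + a) / (1 - a) = (1 + b) / (1 - b) := h
  rw [div_eq_div_iff h1 h2] at h3
  have h4 : 2 * (a - b) = 0 := by linear_combination h3
  have h5 := (mul_eq_zero.1 h4).resolve_left two_ne_zero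
  exact sub_eq_zero.1 h5

theorem f_mv : MQV.MV (ball 0 1) 1 f :=
  G_mv.comp isOpen_ball isOpen_RH quot_diff (fun _ hz => quot_mem hz) quot_inj

theorem f_eq {z : ℂ} (h : z ∈ ball (0 : ℂ) 1) :
    f z = (1 / (1 - z) ^ 2 + (-1) * (1 / (1 - z))) +
      ((99999 / 100000 : ℂ) * z ^ 0 + ((-1 / 100000 : ℂ) * z ^ 1 +
        ((16 / 100000 : ℂ) * z ^ 2 + (11 / 100000 : ℂ) * z ^ 3))) := by
  have h1 := one_sub_ne h
  unfold f G
  have h2 : (1 + z) / (1 - z) + 1 = 2 / (1 - z) := by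
    field_simp
    ring
  have h3 : 1 / ((1 + z) / (1 - z) + 1) = (1 - z) / 2 := by
    rw [h2]
    field_simp
  rw [h3]
  unfold Pu
  push_cast
  field_simp
  ring

theorem f_coef (n : ℕ) : MPV.coef f n = (n : ℂ) + ((99999 / 100000 : ℂ) * (if n = 0 then 1 else 0) +
    ((-1 / 100000 : ℂ) * (if n = 1 then 1 else 0) + ((16 / 100000 : ℂ) * (if n = 2 then 1 else 0) +
      (11 / 100000 : ℂ) * (if n = 3 then 1 else 0)))) := by
  rw [MPV.coef_congr (fun z hz => f_eq hz) n]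
  have d1 : DifferentiableOn ℂ (fun z : ℂ => 1 / (1 - z)) (ball 0 1) := fun z hz =>
    ((differentiableAt_const _).div ((differentiableAt_const _).sub differentiableAt_id)
      (one_sub_ne hz)).differentiableWithinAt
  have d2 : DifferentiableOn ℂ (fun z : ℂ => 1 / (1 - z) ^ 2) (ball 0 1) := by
    intro z hz
    have e : DifferentiableAt ℂ (fun z : ℂ => (1 - z) ^ 2) z := by fun_prop
    exact ((differentiableAt_const _).div e (pow_ne_zero 2 (one_sub_ne hz))).differentiableWithinAt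
  have p : ∀ (c : ℂ) (k : ℕ), DifferentiableOn ℂ (fun z : ℂ => c * z ^ k) (ball 0 1) := by
    intro c k
    fun_prop
  have q : ∀ k : ℕ, DifferentiableOn ℂ (fun z : ℂ => z ^ k) (ball 0 1) := by
    intro k
    fun_prop
  have d3 : DifferentiableOn ℂ (fun z : ℂ => (-1) * (1 / (1 - z))) (ball 0 1) := d1.const_mul (-1)
  have d4 : DifferentiableOn ℂ (fun z : ℂ => 1 / (1 - z) ^ 2 + (-1) * (1 / (1 - z))) (ball 0 1) :=
    d2.add d3
  have r3 : DifferentiableOn ℂ (fun z : ℂ => (16 / 100000 : ℂ) * z ^ 2 + (11 / 100000 : ℂ) * z ^ 3)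
    (ball 0 1) := (p _ 2).add (p _ 3)
  have r2 : DifferentiableOn ℂ (fun z : ℂ => (-1 / 100000 : ℂ) * z ^ 1 +
    ((16 / 100000 : ℂ) * z ^ 2 + (11 / 100000 : ℂ) * z ^ 3)) (ball 0 1) := (p _ 1).add r3
  have r1 : DifferentiableOn ℂ (fun z : ℂ => (99999 / 100000 : ℂ) * z ^ 0 +
    ((-1 / 100000 : ℂ) * z ^ 1 + ((16 / 100000 : ℂ) * z ^ 2 + (11 / 100000 : ℂ) * z ^ 3)))
    (ball 0 1) := (p _ 0).add r2
  rw [coef_add d4 r1, coef_add d2 d3, coef_add (p _ 0) r2, coef_add (p _ 1) r3,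
    coef_add (p _ 2) (p _ 3), coef_mul d1, coef_mul (q 0), coef_mul (q 1), coef_mul (q 2),
    coef_mul (q 3), coef_pow, coef_pow, coef_pow, coef_pow,
    coef_of_series Complex.one_div_one_sub_sq_hasFPowerSeriesOnBall_zero,
    coef_of_series Complex.one_div_one_sub_hasFPowerSeriesOnBall_zero]
  simp only [Pi.one_apply]
  ring

theorem f_mu : MPV.mu 1 f = 99999 / 100000 := by
  unfold MPV.mu
  have h0 : ∀ ν : Fin (⌊(1 : ℝ)⌋₊ + 1), ‖MPV.coef f ν‖ = 99999 / 100000 := by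
    have hfl : ⌊(1 : ℝ)⌋₊ = 1 := Nat.floor_one
    intro ν
    have hν : (ν : ℕ) = 0 ∨ (ν : ℕ) = 1 := by
      have := ν.2
      omega
    rcases hν with h | h
    · rw [h, f_coef]
      norm_num
    · rw [h, f_coef]
      norm_num
  have h1 : (fun ν : Fin (⌊(1 : ℝ)⌋₊ + 1) => ‖MPV.coef f ν‖) = fun _ => 99999 / 100000 := by
    funext ν
    exact h0 ν
  rw [h1]
  exact ciSup_const

/-- the coefficients of `f` -/
theorem f_big {n : ℕ} (hn : 2 ≤ n) : (n : ℝ) ≤ ‖MPV.coef f n‖ := by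
  have h1 := Complex.re_le_norm (MPV.coef f n)
  refine le_trans ?_ h1
  rw [f_coef]
  have h2 : n ≠ 0 := by omega
  have h3 : n ≠ 1 := by omega
  rw [if_neg h2, if_neg h3]
  by_cases h4 : n = 2
  · subst h4
    norm_num
  · by_cases h5 : n = 3
    · subst h5
      norm_num
    · rw [if_neg h4, if_neg h5]
      simp

theorem main {n : ℕ} (hn : 2 ≤ n) :
    ENNReal.ofReal ((1 + 1 / 100000) * n) ≤ MPV.A 1 n := by
  have hμ : 0 < MPV.mu 1 f := by
    rw [f_mu]
    norm_num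
  have hS := MQV.smul_mem_S zero_le_one f_mv hμ
  have h7 : ENNReal.ofReal ‖MPV.coef (fun z => ((MPV.mu 1 f)⁻¹ : ℝ) * f z) n‖ ≤ MPV.A 1 n := by
    unfold MPV.A
    exact le_iSup₂ (f := fun g (_ : g ∈ MPV.S 1) => ENNReal.ofReal ‖MPV.coef g n‖) _ hS
  refine le_trans (ENNReal.ofReal_le_ofReal ?_) h7
  rw [coef_mul f_mv.diff, norm_mul, Complex.norm_real, Real.norm_of_nonneg (by positivity), f_mu]
  have h8 := f_big hn
  have hn0 : (0 : ℝ) ≤ n := Nat.cast_nonneg n
  have h9 : (1 + 1 / 100000 : ℝ) * n ≤ (99999 / 100000)⁻¹ * n := by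
    apply mul_le_mul_of_nonneg_right _ hn0
    norm_num
  exact h9.trans (mul_le_mul_of_nonneg_left h8 (by norm_num))

end KON
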