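import Pool.Agent.KON.Num
import Pool.Agent.MQV.Exm

set_option autoImplicit false

/-!
# KON GEO : the perturbed Koebe function on the right half plane is areally mean `1`-valent

`G W = (3 + W²)/4 + 10⁻⁵ Pu (1/(W+1))`, `Pu u = 25 - 128 u + 196 u² - 88 u³`.
-/

open MeasureTheory Metric Set

namespace KON

noncomputable def Pu (u : ℂ) : ℂ := 25 - 128 * u + 196 * u ^ 2 - 88 * u ^ 3

noncomputable def G (W : ℂ) : ℂ := (3 + W ^ 2) / 4 + ((1 / 100000 : ℝ) : ℂ) * Pu (1 / (W + 1))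

/-- first quadrant -/
def Q1 : Set ℂ := {W | 0 < W.re ∧ 0 < W.im}

/-- fourth quadrant -/
def Q4 : Set ℂ := {W | 0 < W.re ∧ W.im < 0}

/-- right half plane -/
def RH : Set ℂ := {W | 0 < W.re}

theorem isOpen_Q1 : IsOpen Q1 :=
  (isOpen_lt continuous_const Complex.continuous_re).inter
    (isOpen_lt continuous_const Complex.continuous_im)

theorem isOpen_Q4 : IsOpen Q4 :=
  (isOpen_lt continuous_const Complex.continuous_re).inter
    (isOpen_lt Complex.continuous_im continuous_const)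

theorem isOpen_RH : IsOpen RH := isOpen_lt continuous_const Complex.continuous_re

theorem add_one_ne {W : ℂ} (h : 0 < W.re) : W + 1 ≠ 0 := by
  intro h0
  have h1 := congrArg Complex.re h0
  simp at h1
  linarith

theorem normSq_eq (W : ℂ) : Complex.normSq (W + 1) = (1 + W.re) ^ 2 + W.im ^ 2 := by
  rw [Complex.normSq_apply]
  simp
  ring

theorem u_re (W : ℂ) : (1 / (W + 1)).re = (1 + W.re) / ((1 + W.re) ^ 2 + W.im ^ 2) := by
  rw [one_div, Complex.inv_re, normSq_eq]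
  simp [add_comm]

theorem u_im (W : ℂ) : (1 / (W + 1)).im = -(W.im / ((1 + W.re) ^ 2 + W.im ^ 2)) := by
  rw [one_div, Complex.inv_im, normSq_eq]
  simp
  ring

theorem Pu_im (u : ℂ) : (Pu u).im =
    -u.im * (128 - 392 * u.re + 264 * u.re ^ 2 - 88 * u.im ^ 2) := by
  unfold Pu
  simp [pow_succ]
  ring

/-- the lower bound of `Im P` -/
theorem im_ge {W : ℂ} (h : W ∈ Q1) : 32 * v W.re W.im ≤ (Pu (1 / (W + 1))).im := by
  rw [Pu_im, u_re, u_im]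
  have key2 : ∀ x y : ℝ, 0 < x → 0 < y → 32 * v x y ≤
      -(-(y / ((1 + x) ^ 2 + y ^ 2))) * (128 - 392 * ((1 + x) / ((1 + x) ^ 2 + y ^ 2)) +
      264 * ((1 + x) / ((1 + x) ^ 2 + y ^ 2)) ^ 2 - 88 * (-(y / ((1 + x) ^ 2 + y ^ 2))) ^ 2) := by
    intro x y hx hy
    unfold v
    have hD : 0 < (1 + x) ^ 2 + y ^ 2 := by positivity
    have e : -(-(y / ((1 + x) ^ 2 + y ^ 2))) * (128 - 392 * ((1 + x) / ((1 + x) ^ 2 + y ^ 2)) +
        264 * ((1 + x) / ((1 + x) ^ 2 + y ^ 2)) ^ 2 - 88 * (-(y / ((1 + x) ^ 2 + y ^ 2))) ^ 2) -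
        32 * (y * ((1 + x) ^ 2 + y ^ 2 - (1 + x)) * (4 * ((1 + x) ^ 2 + y ^ 2) - 11 * (1 + x)) /
        ((1 + x) ^ 2 + y ^ 2) ^ 3) = 88 * x * y / ((1 + x) ^ 2 + y ^ 2) ^ 2 := by
      field_simp
      ring
    have h2 : 0 ≤ 88 * x * y / ((1 + x) ^ 2 + y ^ 2) ^ 2 := by positivity
    linarith
  exact key2 _ _ h.1 h.2

theorem norm_u {W : ℂ} (h : 0 < W.re) : ‖1 / (W + 1)‖ ≤ 1 := by
  rw [norm_div, norm_one, div_le_one (norm_pos_iff.2 (add_one_ne h))]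
  have h1 := Complex.abs_re_le_norm (W + 1)
  have h2 := le_abs_self (W + 1).re
  have h3 : (W + 1).re = W.re + 1 := by simp
  linarith

theorem norm_z {W : ℂ} (h : 0 < W.re) : ‖1 - 2 * (1 / (W + 1))‖ ≤ 1 := by
  have hne := add_one_ne h
  have e : 1 - 2 * (1 / (W + 1)) = (W - 1) / (W + 1) := by
    field_simp
    ring
  rw [e, norm_div, div_le_one (norm_pos_iff.2 hne)]
  have h1 : ‖W - 1‖ ^ 2 ≤ ‖W + 1‖ ^ 2 := by
    rw [← Complex.normSq_eq_norm_sq, ← Complex.normSq_eq_norm_sq, Complex.normSq_apply,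
      Complex.normSq_apply]
    simp
    nlinarith
  exact (pow_le_pow_iff_left₀ (norm_nonneg _) (norm_nonneg _) two_ne_zero).1 h1

theorem Pu_eq (u : ℂ) :
    Pu u = -1 - (1 - 2 * u) + 16 * (1 - 2 * u) ^ 2 + 11 * (1 - 2 * u) ^ 3 := by
  unfold Pu
  ring

theorem norm_P {W : ℂ} (h : 0 < W.re) : ‖Pu (1 / (W + 1))‖ ≤ 29 := by
  have h1 := norm_z h
  rw [Pu_eq]
  obtain ⟨z, hz⟩ : ∃ z, z = 1 - 2 * (1 / (W + 1)) := ⟨_, rfl⟩
  rw [← hz] at h1 ⊢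
  have h2 : ‖z‖ ^ 2 ≤ 1 := pow_le_one₀ (norm_nonneg _) h1
  have h3 : ‖z‖ ^ 3 ≤ 1 := pow_le_one₀ (norm_nonneg _) h1
  calc ‖-1 - z + 16 * z ^ 2 + 11 * z ^ 3‖
      ≤ ‖-1 - z + 16 * z ^ 2‖ + ‖11 * z ^ 3‖ := norm_add_le _ _
    _ ≤ ‖-1 - z‖ + ‖16 * z ^ 2‖ + ‖11 * z ^ 3‖ := by
        gcongr
        exact norm_add_le _ _
    _ ≤ ‖(-1 : ℂ)‖ + ‖z‖ + ‖16 * z ^ 2‖ + ‖11 * z ^ 3‖ := by
        gcongr
        exact norm_sub_le _ _
    _ ≤ 29 := by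
        rw [norm_neg, norm_one, norm_mul, norm_mul, norm_pow, norm_pow]
        simp only [Complex.norm_ofNat]
        linarith

theorem G_re (W : ℂ) : (G W).re =
    (3 + W.re ^ 2 - W.im ^ 2) / 4 + 1 / 100000 * (Pu (1 / (W + 1))).re := by
  unfold G
  rw [Complex.add_re, Complex.re_ofReal_mul]
  congr 1
  rw [show ((3 : ℂ) + W ^ 2) / 4 = ((1 / 4 : ℝ) : ℂ) * (3 + W ^ 2) by push_cast; ring,
    Complex.re_ofReal_mul]
  simp [pow_two]
  ring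

theorem G_im (W : ℂ) : (G W).im =
    W.re * W.im / 2 + 1 / 100000 * (Pu (1 / (W + 1))).im := by
  unfold G
  rw [Complex.add_im, Complex.im_ofReal_mul]
  congr 1
  rw [show ((3 : ℂ) + W ^ 2) / 4 = ((1 / 4 : ℝ) : ℂ) * (3 + W ^ 2) by push_cast; ring,
    Complex.im_ofReal_mul]
  simp [pow_two]
  ring

/-- `G W₁ + G W₂ ≠ 0` on the first quadrant -/
theorem sum_ne {W₁ W₂ : ℂ} (h₁ : W₁ ∈ Q1) (h₂ : W₂ ∈ Q1) : G W₁ + G W₂ ≠ 0 := by
  intro h
  have hre := congrArg Complex.re h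
  have him := congrArg Complex.im h
  rw [Complex.add_re, G_re, G_re, Complex.zero_re] at hre
  rw [Complex.add_im, G_im, G_im, Complex.zero_im] at him
  have i1 := im_ge h₁
  have i2 := im_ge h₂
  have r1 := (Complex.abs_re_le_norm (Pu (1 / (W₁ + 1)))).trans (norm_P h₁.1)
  have r2 := (Complex.abs_re_le_norm (Pu (1 / (W₂ + 1)))).trans (norm_P h₂.1)
  rw [abs_le] at r1 r2
  have k := key (e := 4 * (1 / 100000) * ((Pu (1 / (W₁ + 1))).re + (Pu (1 / (W₂ + 1))).re))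
    h₁.1 h₁.2 h₂.1 h₂.2 (by
      rw [abs_le]
      constructor
      · linarith [r1.1, r2.1]
      · linarith [r1.2, r2.2]) (by linarith)
  linarith

theorem im_mul_le {a b : ℂ} (ha : ‖a‖ ≤ 1) (hb : ‖b‖ ≤ 1) : |(a * b).im| ≤ |a.im| + |b.im| := by
  have h1 := (Complex.abs_re_le_norm a).trans ha
  have h2 := (Complex.abs_re_le_norm b).trans hb
  rw [Complex.mul_im]
  refine (abs_add_le _ _).trans ?_
  rw [abs_mul, abs_mul]
  nlinarith [abs_nonneg a.im, abs_nonneg b.im]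

theorem norm_mul_le1 {a b : ℂ} (ha : ‖a‖ ≤ 1) (hb : ‖b‖ ≤ 1) : ‖a * b‖ ≤ 1 := by
  rw [norm_mul]
  exact mul_le_one₀ ha (norm_nonneg _) hb

theorem abs_im_u {W : ℂ} (h : 0 < W.re) : |(1 / (W + 1)).im| ≤ |W.im| := by
  rw [u_im, abs_neg, abs_div]
  have h1 : 1 ≤ |(1 + W.re) ^ 2 + W.im ^ 2| := by
    rw [abs_of_nonneg (by positivity)]
    nlinarith [sq_nonneg W.im]
  exact div_le_self (abs_nonneg _) h1

theorem G_inj_Q1 : InjOn G Q1 := by
  intro W₁ h₁ W₂ h₂ he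
  by_contra hne
  have n1 := norm_u h₁.1
  have n2 := norm_u h₂.1
  have m1 := abs_im_u h₁.1
  have m2 := abs_im_u h₂.1
  rw [abs_of_pos h₁.2] at m1
  rw [abs_of_pos h₂.2] at m2
  have k1 := add_one_ne h₁.1
  have k2 := add_one_ne h₂.1
  obtain ⟨a, ha⟩ : ∃ a, a = 1 / (W₁ + 1) := ⟨_, rfl⟩
  obtain ⟨b, hb⟩ : ∃ b, b = 1 / (W₂ + 1) := ⟨_, rfl⟩
  have hab : a - b = (W₂ - W₁) * (a * b) := by
    rw [ha, hb]
    field_simp
    ring
  unfold G at he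
  rw [← ha, ← hb] at he
  rw [← ha] at n1 m1
  rw [← hb] at n2 m2
  have hP : Pu a - Pu b = (W₂ - W₁) * ((a * b) *
      (-128 + 196 * (a + b) - 88 * (a ^ 2 + a * b + b ^ 2))) := by
    have : Pu a - Pu b = (a - b) * (-128 + 196 * (a + b) - 88 * (a ^ 2 + a * b + b ^ 2)) := by
      unfold Pu
      ring
    rw [this, hab]
    ring
  have h0 : (W₁ - W₂) * ((W₁ + W₂) / 4 - ((1 / 100000 : ℝ) : ℂ) * ((a * b) *
      (-128 + 196 * (a + b) - 88 * (a ^ 2 + a * b + b ^ 2)))) = 0 := by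
    have e1 : (3 + W₁ ^ 2) / 4 + ((1 / 100000 : ℝ) : ℂ) * Pu a -
        ((3 + W₂ ^ 2) / 4 + ((1 / 100000 : ℝ) : ℂ) * Pu b) = 0 := by
      rw [he, sub_self]
    have e2 : (3 + W₁ ^ 2) / 4 + ((1 / 100000 : ℝ) : ℂ) * Pu a -
        ((3 + W₂ ^ 2) / 4 + ((1 / 100000 : ℝ) : ℂ) * Pu b) =
        (W₁ - W₂) * ((W₁ + W₂) / 4) + ((1 / 100000 : ℝ) : ℂ) * (Pu a - Pu b) := by ring
    rw [e2, hP] at e1
    rw [← e1]
    ring
  have h1 := (mul_eq_zero.1 h0).resolve_left (sub_ne_zero.2 hne)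
  have h2 := congrArg Complex.im h1
  rw [Complex.sub_im, Complex.im_ofReal_mul, Complex.zero_im] at h2
  have h3 : ((W₁ + W₂) / 4).im = (W₁.im + W₂.im) / 4 := by
    rw [show (W₁ + W₂) / 4 = ((1 / 4 : ℝ) : ℂ) * (W₁ + W₂) by push_cast; ring,
      Complex.im_ofReal_mul, Complex.add_im]
    ring
  rw [h3] at h2
  have e : (a * b) * (-128 + 196 * (a + b) - 88 * (a ^ 2 + a * b + b ^ 2)) =
      ((-128 : ℝ) : ℂ) * (a * b) + ((196 : ℝ) : ℂ) * (a * (a * b)) +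
        ((196 : ℝ) : ℂ) * ((a * b) * b) + ((-88 : ℝ) : ℂ) * (a * (a * (a * b))) +
        ((-88 : ℝ) : ℂ) * ((a * b) * (a * b)) + ((-88 : ℝ) : ℂ) * (((a * b) * b) * b) := by
    push_cast
    ring
  rw [e] at h2
  simp only [Complex.add_im, Complex.im_ofReal_mul] at h2
  have q2 := norm_mul_le1 n1 n2
  have q3 := norm_mul_le1 n1 q2
  have q3' := norm_mul_le1 q2 n2
  have p2 := im_mul_le n1 n2
  have p3 := im_mul_le n1 q2
  have p3' := im_mul_le q2 n2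
  have p4 := im_mul_le n1 q3
  have p4' := im_mul_le q2 q2
  have p4'' := im_mul_le q3' n2
  have y1 := h₁.2
  have y2 := h₂.2
  have t2 := abs_le.1 (p2.trans (add_le_add m1 m2))
  have t3 := abs_le.1 (p3.trans (add_le_add m1 (p2.trans (add_le_add m1 m2))))
  have t3' := abs_le.1 (p3'.trans (add_le_add (p2.trans (add_le_add m1 m2)) m2))
  have t4 := abs_le.1 (p4.trans (add_le_add m1 (p3.trans (add_le_add m1 (p2.trans (add_le_add m1 m2))))))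
  have t4' := abs_le.1 (p4'.trans (add_le_add (p2.trans (add_le_add m1 m2)) (p2.trans (add_le_add m1 m2))))
  have t4'' := abs_le.1 (p4''.trans (add_le_add (p3'.trans (add_le_add (p2.trans (add_le_add m1 m2)) m2)) m2))
  obtain ⟨t2a, t2b⟩ := t2
  obtain ⟨t3a, t3b⟩ := t3
  obtain ⟨t3'a, t3'b⟩ := t3'
  obtain ⟨t4a, t4b⟩ := t4
  obtain ⟨t4'a, t4'b⟩ := t4'
  obtain ⟨t4''a, t4''b⟩ := t4''
  linarith

end KON
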