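import Mathlib

set_option autoImplicit false

/-!
# KON NUM : the real inequalities (problem MP_a1ed50_an, `p = 1`)

`x + iy` is a point of the first quadrant, `D = (1+x)² + y²`;
`v x y = y (D - (1+x)) (4 D - 11 (1+x)) / D³`.  If `6 + x₁² + x₂² - y₁² - y₂² + e = 0`, `|e| ≤ 0.0024`, then
`(x₁y₁ + x₂y₂)/2 + 32·10⁻⁵ (v₁ + v₂) > 0`.
-/

namespace KON

/-- lower bound of `Im P / 32` -/
noncomputable def v (x y : ℝ) : ℝ :=
  y * ((1 + x) ^ 2 + y ^ 2 - (1 + x)) * (4 * ((1 + x) ^ 2 + y ^ 2) - 11 * (1 + x)) /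
    ((1 + x) ^ 2 + y ^ 2) ^ 3

theorem polyC {y : ℝ} (hy : 0 ≤ y) :
    y * (y ^ 2 + 0.0051) * (7.015 - 4 * y ^ 2) ≤ 0.565 * (1 + y ^ 2) ^ 3 := by
  nlinarith [mul_nonneg hy (sq_nonneg (y ^ 2 - 0.5625)), sq_nonneg (y ^ 3 - 0.42 * y), sq_nonneg (y - 0.75),
    mul_nonneg hy (sq_nonneg (y - 0.75)), sq_nonneg (y ^ 2 - 0.75 * y), sq_nonneg (y ^ 2 - 0.5625),
    mul_nonneg hy (sq_nonneg (y ^ 2 - 0.75 * y))]

theorem polyD {y : ℝ} (h1 : 2.05 ≤ y) (h2 : y ≤ 2.46) :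
    0.57 * (y ^ 2 + 1.0021) ^ 3 ≤ y ^ 3 * (4 * y ^ 2 - 7.003) := by
  obtain ⟨s, hs⟩ : ∃ s, s = y - 2.05 := ⟨_, rfl⟩
  have hy : y = 2.05 + s := by rw [hs]; ring
  have hs0 : 0 ≤ s := by rw [hs]; linarith
  have hs1 : s ≤ 0.41 := by rw [hs]; linarith
  subst hy
  nlinarith [mul_nonneg hs0 (sub_nonneg.2 hs1), mul_nonneg (mul_nonneg hs0 hs0) (sub_nonneg.2 hs1),
    mul_nonneg (mul_nonneg hs0 hs0) (mul_nonneg hs0 (sub_nonneg.2 hs1)),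
    mul_nonneg (mul_nonneg hs0 hs0) (mul_nonneg (mul_nonneg hs0 hs0) (sub_nonneg.2 hs1)),
    mul_nonneg (mul_nonneg (mul_nonneg hs0 hs0) hs0) (mul_nonneg (mul_nonneg hs0 hs0) (sub_nonneg.2 hs1))]

theorem D_pos {x y : ℝ} (hx : 0 ≤ x) : 1 + y ^ 2 ≤ (1 + x) ^ 2 + y ^ 2 := by nlinarith

/-- where `v` is negative, `y` is small -/
theorem v_neg {x y : ℝ} (hx : 0 ≤ x) (hy : 0 < y) (h : v x y < 0) :
    4 * y ^ 2 < 11 * (1 + x) - 4 * (1 + x) ^ 2 := by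
  by_contra hc
  push Not at hc
  have h0 : 0 < (1 + x) ^ 2 + y ^ 2 := by positivity
  have h1 : 0 ≤ v x y := by
    unfold v
    apply div_nonneg _ (by positivity)
    apply mul_nonneg (mul_nonneg hy.le _) _
    · nlinarith
    · nlinarith
  linarith

/-- crude bound -/
theorem v_ge_crude {x y : ℝ} (hx : 0 ≤ x) (hy : 0 < y) : -(7 * y) ≤ v x y := by
  have h0 : 1 + y ^ 2 ≤ (1 + x) ^ 2 + y ^ 2 := D_pos hx
  have hX : (1 + x) ≤ (1 + x) ^ 2 + y ^ 2 := by nlinarith [sq_nonneg y]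
  unfold v
  obtain ⟨D, hD⟩ : ∃ D, D = (1 + x) ^ 2 + y ^ 2 := ⟨_, rfl⟩
  rw [← hD] at h0 hX ⊢
  have hD1 : 1 ≤ D := by nlinarith [sq_nonneg y]
  have hD0 : 0 < D := by linarith
  rw [le_div_iff₀ (by positivity)]
  have h1 : (D - (1 + x)) * (-(7 * D)) ≤ (D - (1 + x)) * (4 * D - 11 * (1 + x)) := by
    apply mul_le_mul_of_nonneg_left _ (by linarith)
    linarith
  have h2 : (D - (1 + x)) * (7 * D) ≤ 7 * D ^ 3 := by
    have : (D - (1 + x)) * (7 * D) ≤ D * (7 * D) := by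
      apply mul_le_mul_of_nonneg_right _ (by linarith)
      linarith
    nlinarith [mul_pos hD0 hD0]
  have h3 : -(7 * D ^ 3) ≤ (D - (1 + x)) * (4 * D - 11 * (1 + x)) := by linarith
  have h4 := mul_le_mul_of_nonneg_left h3 hy.le
  linarith [h4]

/-- fine bound near the boundary, where `v` may be negative -/
theorem v_ge_fine {x y : ℝ} (hx : 0 ≤ x) (hx1 : x ≤ 0.005) (hy : 0 < y) : -0.565 ≤ v x y := by
  have h0 : 1 + y ^ 2 ≤ (1 + x) ^ 2 + y ^ 2 := D_pos hx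
  by_cases hc : 11 * (1 + x) - 4 * ((1 + x) ^ 2 + y ^ 2) ≤ 0
  · have h1 : 0 ≤ v x y := by
      unfold v
      apply div_nonneg _ (by positivity)
      apply mul_nonneg (mul_nonneg hy.le _) _
      · nlinarith
      · linarith
    linarith
  · push Not at hc
    unfold v
    rw [le_div_iff₀ (by positivity)]
    have h1 : (1 + x) ^ 2 + y ^ 2 - (1 + x) ≤ y ^ 2 + 0.0051 := by nlinarith
    have h2 : 11 * (1 + x) - 4 * ((1 + x) ^ 2 + y ^ 2) ≤ 7.015 - 4 * y ^ 2 := by nlinarith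
    have h3 : 0 ≤ (1 + x) ^ 2 + y ^ 2 - (1 + x) := by nlinarith
    have h4 : ((1 + x) ^ 2 + y ^ 2 - (1 + x)) * (11 * (1 + x) - 4 * ((1 + x) ^ 2 + y ^ 2)) ≤
        (y ^ 2 + 0.0051) * (7.015 - 4 * y ^ 2) :=
      mul_le_mul h1 h2 hc.le (by positivity)
    have h5 := mul_le_mul_of_nonneg_left h4 hy.le
    have h6 := polyC hy.le
    have h7 : (1 + y ^ 2) ^ 3 ≤ ((1 + x) ^ 2 + y ^ 2) ^ 3 := pow_le_pow_left₀ (by positivity) h0 3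
    nlinarith [h5, h6, h7]

/-- lower bound where the gap is -/
theorem v_ge_gap {x y : ℝ} (hx : 0 ≤ x) (hx1 : x ≤ 0.001) (h1 : 2.05 ≤ y) (h2 : y ≤ 2.46) :
    0.57 ≤ v x y := by
  have hy : 0 < y := by linarith
  unfold v
  rw [le_div_iff₀ (by positivity)]
  have e1 : y ^ 2 ≤ (1 + x) ^ 2 + y ^ 2 - (1 + x) := by nlinarith
  have e2 : 4 * y ^ 2 - 7.003 ≤ 4 * ((1 + x) ^ 2 + y ^ 2) - 11 * (1 + x) := by nlinarith
  have e3 : 0 ≤ 4 * y ^ 2 - 7.003 := by nlinarith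
  have e4 : y ^ 2 * (4 * y ^ 2 - 7.003) ≤
      ((1 + x) ^ 2 + y ^ 2 - (1 + x)) * (4 * ((1 + x) ^ 2 + y ^ 2) - 11 * (1 + x)) :=
    mul_le_mul e1 e2 e3 (le_trans (sq_nonneg y) e1)
  have e5 := mul_le_mul_of_nonneg_left e4 hy.le
  have e6 := polyD h1 h2
  have e7 : ((1 + x) ^ 2 + y ^ 2) ^ 3 ≤ (y ^ 2 + 1.0021) ^ 3 := by
    apply pow_le_pow_left₀ (by positivity)
    nlinarith
  nlinarith [e5, e6, e7]

private theorem aux {x₁ y₁ x₂ y₂ e : ℝ} (hx₁ : 0 < x₁) (hy₁ : 0 < y₁) (hx₂ : 0 < x₂) (hy₂ : 0 < y₂)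
    (he : |e| ≤ 0.0024) (hre : 6 + x₁ ^ 2 + x₂ ^ 2 - y₁ ^ 2 - y₂ ^ 2 + e = 0)
    (h : x₁ * y₁ / 2 + 32 / 100000 * v x₁ y₁ ≤ 0) :
    0 < (x₁ * y₁ + x₂ * y₂) / 2 + 32 / 100000 * (v x₁ y₁ + v x₂ y₂) := by
  obtain ⟨he1, he2⟩ := abs_le.1 he
  have c1 := v_ge_crude hx₁.le hy₁
  have hx1 : x₁ ≤ 0.0045 := by
    have : x₁ * y₁ ≤ 0.0045 * y₁ := by linarith
    exact le_of_mul_le_mul_right this hy₁
  have hxy1 : 0 < x₁ * y₁ := mul_pos hx₁ hy₁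
  have hneg : v x₁ y₁ < 0 := by linarith
  have hy1 := v_neg hx₁.le hy₁ hneg
  have hy1' : y₁ ^ 2 ≤ 1.7534 := by nlinarith
  have f1 := v_ge_fine hx₁.le (by linarith) hy₁
  have hy2 : 4.2442 ≤ y₂ ^ 2 - x₂ ^ 2 := by nlinarith [sq_nonneg x₁]
  have hy2' : 2.06 ≤ y₂ := by
    by_contra hc
    push Not at hc
    nlinarith [sq_nonneg x₂]
  by_contra hcon
  push Not at hcon
  have g1 : 0 < 4 * ((1 + x₂) ^ 2 + y₂ ^ 2) - 11 * (1 + x₂) := by nlinarith [sq_nonneg (x₂ - 0.2)]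
  have hv2 : 0 ≤ v x₂ y₂ := by
    unfold v
    apply div_nonneg _ (by positivity)
    apply mul_nonneg (mul_nonneg hy₂.le _) g1.le
    nlinarith
  have hx2y2 : x₂ * y₂ ≤ 0.0004 := by nlinarith
  have hx2 : x₂ ≤ 0.001 := by
    by_contra hc
    push Not at hc
    nlinarith
  have hy2'' : y₂ ≤ 2.46 := by
    by_contra hc
    push Not at hc
    nlinarith [sq_nonneg y₁]
  have f2 := v_ge_gap hx₂.le hx2 (by linarith) hy2''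
  have hxy2 : 0 < x₂ * y₂ := mul_pos hx₂ hy₂
  linarith

/-- the sum never vanishes -/
theorem key {x₁ y₁ x₂ y₂ e : ℝ} (hx₁ : 0 < x₁) (hy₁ : 0 < y₁) (hx₂ : 0 < x₂) (hy₂ : 0 < y₂)
    (he : |e| ≤ 0.0024) (hre : 6 + x₁ ^ 2 + x₂ ^ 2 - y₁ ^ 2 - y₂ ^ 2 + e = 0) :
    0 < (x₁ * y₁ + x₂ * y₂) / 2 + 32 / 100000 * (v x₁ y₁ + v x₂ y₂) := by
  by_cases h1 : x₁ * y₁ / 2 + 32 / 100000 * v x₁ y₁ ≤ 0
  · exact aux hx₁ hy₁ hx₂ hy₂ he hre h1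
  · by_cases h2 : x₂ * y₂ / 2 + 32 / 100000 * v x₂ y₂ ≤ 0
    · have := aux hx₂ hy₂ hx₁ hy₁ he (by linarith) h2
      linarith
    · push Not at h1 h2
      linarith

end KON
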